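import Pool.Agent.H80.G2.Targets

/-!
# Row AVU: the distance to the scalars is bounded by the commutators
-/

set_option autoImplicit false

open scoped InnerProductSpace Topology
open Filter Finset
open Pool.Agent.H80.G2

namespace Pool.Agent.H94.G2

theorem pf_AVU (hAVG : T_AVG) : T_AVU := by
  intro H _ _ _ M ξ hT hF x hx r hr
  obtain ⟨T, hM, hlim⟩ := hAVG H M ξ hT hF x hx
  have h1 : ∀ k, n2 ξ (T k - x) ≤ r := by
    intro k
    refine Mc.n2_le hT.sum (O := Orb M x) ?_ (hM k)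
    rintro y ⟨u, hu, rfl⟩
    rw [n2_comm_uni hT hu hx]
    exact hr u hu
  have h2 : ∀ k, n2 ξ (x - tr ξ x • (1 : H →L[ℂ] H)) ≤
      r + n2 ξ (T k - tr ξ x • (1 : H →L[ℂ] H)) := by
    intro k
    refine (n2_sub_le hT.sum x (T k) _).trans ?_
    rw [n2_sub_comm ξ x (T k)]
    exact add_le_add (h1 k) le_rfl
  have h3 : Tendsto (fun k => r + n2 ξ (T k - tr ξ x • (1 : H →L[ℂ] H))) atTop (𝓝 (r + 0)) :=
    hlim.const_add r
  rw [add_zero] at h3
  exact ge_of_tendsto' h3 h2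

end Pool.Agent.H94.G2
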